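import Pool.Agent.H47.KS.Targets

/-!
# Row APR of the board ksu_modules: arithmetic progression from two popular degrees
-/

set_option autoImplicit false

namespace Pool.Agent.H68.KSU

open Finset Pool.Agent.H37.SP Pool.Agent.H47.KS

theorem ee_hom {N : ℕ} (G : SimpleGraph (Fin N)) {K Q : Finset (Fin N)} {e : ℤ}
    (hK : ∀ a ∈ K, ∀ b ∈ K, a ≠ b → aa G a b = e) (hQ : Q ⊆ K) :
    ee G Q = e * C2 (Q.card : ℤ) := by
  classical
  have h1 := two_mul_ee G Q
  have h2 : ∀ x ∈ Q, dg G Q x = ((Q.card : ℤ) - 1) * e := by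
    intro x hx
    have h3 : dg G Q x = ∑ y ∈ Q, (e - if x = y then e else 0) := by
      unfold dg
      refine sum_congr rfl fun y hy => ?_
      by_cases hxy : x = y
      · rw [if_pos hxy, ← hxy, aa_self, sub_self]
      · rw [if_neg hxy, sub_zero]
        exact hK x (hQ hx) y (hQ hy) hxy
    rw [h3, sum_sub_distrib, sum_const, sum_ite_eq, if_pos hx, nsmul_eq_mul]
    ring
  rw [sum_congr rfl h2, sum_const, nsmul_eq_mul] at h1
  have h4 := two_C2 (Q.card : ℤ)
  have h5 : 2 * ee G Q = 2 * (e * C2 (Q.card : ℤ)) := by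
    rw [h1]
    linear_combination (-e) * h4
  linarith

theorem pf_APR : T_APR := by
  classical
  intro N G R K q x0 e v v' hRK hK hx0 hcard hv h1 h2
  obtain ⟨U, hU, hUc⟩ := exists_subset_card_eq h1
  obtain ⟨U', hU', hUc'⟩ := exists_subset_card_eq h2
  have hUK : U ⊆ K := hU.trans (filter_subset _ _)
  have hUK' : U' ⊆ K := hU'.trans (filter_subset _ _)
  have hdUU : Disjoint U U' := by
    rw [disjoint_left]
    intro a ha ha'
    have e1 := (mem_filter.1 (hU ha)).2
    have e2 := (mem_filter.1 (hU' ha')).2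
    exact hv (e1.symm.trans e2)
  have hFc : q - x0 ≤ (K \ (U ∪ U')).card := by
    rw [card_sdiff_of_subset (union_subset hUK hUK'), card_union_of_disjoint hdUU, hUc, hUc']
    omega
  obtain ⟨F, hF, hFcard⟩ := exists_subset_card_eq hFc
  have hFK : F ⊆ K := hF.trans sdiff_subset
  have hdF : Disjoint F (U ∪ U') := disjoint_of_subset_left hF sdiff_disjoint
  refine ⟨ee G R + e * C2 (q : ℤ) + ∑ a ∈ F, dg G R a + x0 * v, v' - v, sub_ne_zero.2 hv.symm, ?_⟩
  intro z hz
  unfold prog at hz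
  rw [mem_image] at hz
  obtain ⟨t, ht, rfl⟩ := hz
  rw [mem_range] at ht
  obtain ⟨S, hS, hSc⟩ := exists_subset_card_eq (show x0 - t ≤ U.card by omega)
  obtain ⟨S', hS', hSc'⟩ := exists_subset_card_eq (show t ≤ U'.card by omega)
  have hdSS : Disjoint S S' := disjoint_of_subset_left hS (disjoint_of_subset_right hS' hdUU)
  have hdFS : Disjoint F (S ∪ S') := disjoint_of_subset_right (union_subset_union hS hS') hdF
  have hQK : F ∪ (S ∪ S') ⊆ K :=
    union_subset hFK (union_subset (hS.trans hUK) (hS'.trans hUK'))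
  have hQc : (F ∪ (S ∪ S')).card = q := by
    rw [card_union_of_disjoint hdFS, card_union_of_disjoint hdSS, hFcard, hSc, hSc']
    omega
  refine ⟨F ∪ (S ∪ S'), hQK, hQc, ?_⟩
  have hRQ : Disjoint R (F ∪ (S ∪ S')) := disjoint_of_subset_right hQK hRK
  rw [ee_union G hRQ, ee_hom G hK hQK, hQc, sum_union hdFS, sum_union hdSS]
  have e1 : ∑ a ∈ S, dg G R a = ((x0 : ℤ) - t) * v := by
    rw [sum_congr rfl (g := fun _ => v) (fun a ha => (mem_filter.1 (hU (hS ha))).2), sum_const,
      hSc, nsmul_eq_mul, Nat.cast_sub ht.le]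
  have e2 : ∑ a ∈ S', dg G R a = (t : ℤ) * v' := by
    rw [sum_congr rfl (g := fun _ => v') (fun a ha => (mem_filter.1 (hU' (hS' ha))).2), sum_const,
      hSc', nsmul_eq_mul]
  rw [e1, e2]
  ring

end Pool.Agent.H68.KSU
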