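import Pool.Agent.H47.KS.Targets

/-!
# Row BIN of the board ksu_modules: sets which meet `J` in few elements
-/

set_option autoImplicit false

namespace Pool.Agent.H68.KSU

open Finset Pool.Agent.H37.SP Pool.Agent.H47.KS

/-- subsets of `J` with at most one hundredth of its elements -/
theorem few_sub (J : Finset ℤ) :
    (J.powerset.filter (fun A => 100 * A.card ≤ J.card)).card * 2 ^ (J.card / 2) ≤
      2 ^ J.card := by
  obtain ⟨j, hj⟩ : ∃ j, J.card = j := ⟨_, rfl⟩
  obtain ⟨n, hn⟩ : ∃ n, (J.powerset.filter (fun A => 100 * A.card ≤ J.card)).card = n := ⟨_, rfl⟩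
  have h1 : n * 8 ^ (j - j / 100) ≤ 9 ^ j := by
    have h2 := Finset.sum_pow_mul_eq_add_pow (1 : ℕ) 8 J
    have h3 : ∑ A ∈ J.powerset.filter (fun A => 100 * A.card ≤ J.card), 8 ^ (j - j / 100) ≤
        ∑ A ∈ J.powerset, 1 ^ A.card * 8 ^ (J.card - A.card) := by
      refine (sum_le_sum (g := fun A => 1 ^ A.card * 8 ^ (J.card - A.card)) fun A hA => ?_).trans
        (sum_le_sum_of_subset (filter_subset _ _))
      rw [mem_filter] at hA
      rw [one_pow, one_mul, hj]
      have := hA.2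
      rw [hj] at this
      exact Nat.pow_le_pow_right (by norm_num) (by omega)
    rw [h2, sum_const, smul_eq_mul, hn, hj] at h3
    exact h3
  have h4 : n * 8 ^ j ≤ 8 ^ (j / 100) * 9 ^ j := by
    have e : 8 ^ j = 8 ^ (j - j / 100) * 8 ^ (j / 100) := by
      rw [← pow_add]
      congr 1
      omega
    rw [e, ← mul_assoc, mul_comm (8 ^ (j / 100))]
    exact Nat.mul_le_mul_right _ h1
  have h5 : 64 ^ (j / 100) * 81 ^ j ≤ 128 ^ j := by
    have e1 : j = 100 * (j / 100) + j % 100 := by omega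
    have e2 : ∀ c : ℕ, c ^ j = (c ^ 100) ^ (j / 100) * c ^ (j % 100) := by
      intro c
      rw [← pow_mul, ← pow_add, ← e1]
    rw [e2 81, e2 128, ← mul_assoc, ← mul_pow]
    apply Nat.mul_le_mul
    · exact Nat.pow_le_pow_left (by norm_num) _
    · exact Nat.pow_le_pow_left (by norm_num) _
  have h6 : n ^ 2 * 64 ^ j ≤ 2 ^ j * 64 ^ j := by
    calc n ^ 2 * 64 ^ j = (n * 8 ^ j) ^ 2 := by
          rw [mul_pow, ← pow_mul, mul_comm j 2, pow_mul]
          norm_num
      _ ≤ (8 ^ (j / 100) * 9 ^ j) ^ 2 := Nat.pow_le_pow_left h4 2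
      _ = 64 ^ (j / 100) * 81 ^ j := by
          rw [mul_pow, ← pow_mul, ← pow_mul, mul_comm (j / 100) 2, mul_comm j 2, pow_mul, pow_mul]
          norm_num
      _ ≤ 128 ^ j := h5
      _ = 2 ^ j * 64 ^ j := by
          rw [← mul_pow]
          norm_num
  have h7 : n ^ 2 ≤ 2 ^ j := Nat.le_of_mul_le_mul_right h6 (by positivity)
  have h8 : (n * 2 ^ (j / 2)) ^ 2 ≤ (2 ^ j) ^ 2 := by
    rw [mul_pow, sq (2 ^ j)]
    apply Nat.mul_le_mul h7
    rw [← pow_mul]
    exact Nat.pow_le_pow_right (by norm_num) (by omega)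
  rw [hn, hj]
  exact (Nat.pow_le_pow_iff_left (by norm_num)).1 h8

theorem pf_BIN : T_BIN := by
  classical
  intro U J hJ
  have h1 : (U.powerset.filter (fun S => 100 * (S ∩ J).card ≤ J.card)).card ≤
      (J.powerset.filter (fun A => 100 * A.card ≤ J.card)).card * 2 ^ (U \ J).card := by
    rw [← card_powerset, ← card_product]
    refine card_le_card_of_injOn (fun S => (S ∩ J, S \ J)) ?_ ?_
    · intro S hS
      have hS' := mem_filter.1 (mem_coe.1 hS)
      rw [mem_coe, mem_product, mem_filter, mem_powerset, mem_powerset]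
      exact ⟨⟨inter_subset_right, hS'.2⟩, sdiff_subset_sdiff (mem_powerset.1 hS'.1) le_rfl⟩
    · intro S _ S' _ h
      have e1 : S ∩ J = S' ∩ J := congrArg Prod.fst h
      have e2 : S \ J = S' \ J := congrArg Prod.snd h
      rw [← sdiff_union_inter S J, ← sdiff_union_inter S' J, e1, e2]
  calc (U.powerset.filter (fun S => 100 * (S ∩ J).card ≤ J.card)).card * 2 ^ (J.card / 2)
      ≤ ((J.powerset.filter (fun A => 100 * A.card ≤ J.card)).card * 2 ^ (U \ J).card) *
        2 ^ (J.card / 2) := Nat.mul_le_mul_right _ h1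
    _ = ((J.powerset.filter (fun A => 100 * A.card ≤ J.card)).card * 2 ^ (J.card / 2)) *
        2 ^ (U \ J).card := by ring
    _ ≤ 2 ^ J.card * 2 ^ (U \ J).card := Nat.mul_le_mul_right _ (few_sub J)
    _ = 2 ^ U.card := by
        rw [← pow_add, card_sdiff_of_subset hJ]
        congr 1
        have := card_le_card hJ
        omega

end Pool.Agent.H68.KSU
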